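import Pool.Agent.X152.PK.Graph

set_option autoImplicit false

/-!
MP_dfa28f_co (cop numbers of `P_k`-free graphs): every even `k ≥ 8` belongs to the set `𝒦`.

`N6ef48c04.copNumber G` is the cop number (`Pool/Prelude/Def_F_8db9d53c.lean`), and
`SimpleGraph.pathGraph k ↪g G` is the type of induced paths with `k` vertices in `G`.

Proof. Let `k = 2 m`, `m ≥ 3`. Take a random graph on `N` vertices with edge probability
`p = N ^ (-1 / (m - 1) + ε)`. Any `m - 1` vertices have about `N ^ (ε (m - 1))` common neighbours,
while there are only `N ^ (1 + O (ε))` copies of the complement of `P_{2m}`, much fewer than edges.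
Delete from each copy the edge joining the two end vertices of the path. A first moment bound for
sequences of copies hanging on distinct common neighbours shows that with positive probability any
set `S` of `m - 1` vertices and any `r1, r2` outside `S` still have a vertex `w` joined to all of `S`
and not joined to `r1, r2`. In the complement of this graph there is no induced `P_{2m}`, any two
vertices have a common neighbour, and the robber on `r` can always move to such a vertex `w`, which
`m - 1` cops on `S` do not attack.
-/

namespace Pool.Agent.Results.MP_dfa28f_co.EvenPathLengths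

open N6ef48c04

/-- The set `𝒦` of the problem: the integers `k ≥ 7` for which some connected finite graph without
induced path on `k` vertices has cop number greater than `⌊(k - 1) / 2⌋`. -/
def KSet : Set ℕ :=
  {k | 7 ≤ k ∧ ∃ (V : Type) (_ : Fintype V) (G : SimpleGraph V), G.Connected ∧
    IsEmpty (SimpleGraph.pathGraph k ↪g G) ∧ (k - 1) / 2 < copNumber G}

/-- For every even `k ≥ 6` some connected finite graph without induced path on `k` vertices has cop
number at least `k / 2`; every even `k ≥ 8` belongs to `𝒦`, so `𝒦` is infinite. -/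
theorem result :
    (∀ k : ℕ, 6 ≤ k → Even k → ∃ (V : Type) (_ : Fintype V) (G : SimpleGraph V), G.Connected ∧
      IsEmpty (SimpleGraph.pathGraph k ↪g G) ∧ k / 2 ≤ copNumber G) ∧
    (∀ k : ℕ, 8 ≤ k → Even k → k ∈ KSet) ∧ KSet.Infinite := by
  have h1 : ∀ k : ℕ, 6 ≤ k → Even k → ∃ (V : Type) (_ : Fintype V) (G : SimpleGraph V),
      G.Connected ∧ IsEmpty (SimpleGraph.pathGraph k ↪g G) ∧ k / 2 ≤ copNumber G := by
    intro k hk he
    obtain ⟨m, rfl⟩ := he.exists_two_nsmul
    obtain ⟨V, i, G, h1, h2, h3⟩ := Pool.Agent.X152.PK.main (m := m) (by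
      simp only [smul_eq_mul] at hk; omega)
    refine ⟨V, i, G, h1, ?_, ?_⟩
    · simpa only [smul_eq_mul] using h2
    · simp only [smul_eq_mul]
      omega
  have h2 : ∀ k : ℕ, 8 ≤ k → Even k → k ∈ KSet := by
    intro k hk he
    obtain ⟨V, i, G, a, b, c⟩ := h1 k (by omega) he
    refine ⟨by omega, V, i, G, a, b, ?_⟩
    obtain ⟨m, rfl⟩ := he
    omega
  refine ⟨h1, h2, ?_⟩
  refine Set.infinite_of_not_bddAbove ?_
  rintro ⟨B, hB⟩
  have h3 := hB (h2 (2 * (B + 4)) (by omega) (even_two_mul _))
  omega

end Pool.Agent.Results.MP_dfa28f_co.EvenPathLengths
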